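import Mathlib
import Pool.Agent.Helper11.RP4.FourSets

namespace Pool.Agent.Results.MP_cabe73_gt.FourSubsets

open Pool.Agent.Helper11.RP4

open Classical in
/-- Let `K` be a complex with the properties `IsProjectiveManifold4` of a triangulation of the real
projective 4-space, with `n` vertices, and let the simplexwise linear map given by the positions
`p` of the vertices be tight. If all sets of two or three vertices can be cut off by closed
half-spaces, then the number `B` of sets of four vertices that cannot be cut off satisfies
`1 ≤ B` and `(n - 1) (n - 6) (n - 8) (n - 15) ≤ 24 B`. -/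
theorem result {V : Type} [Fintype V] [DecidableEq V] {K : Finset (Finset V)}
    (hK : IsProjectiveManifold4 K) {N : ℕ} (p : V → (Fin N → ℝ)) (hT : Tight K p)
    (h3 : ∀ S : Finset V, 2 ≤ S.card → S.card ≤ 3 → CutOff p S) :
    1 ≤ ((Finset.powersetCard 4 (Finset.univ : Finset V)).filter
      (fun S => ¬ CutOff p S)).card ∧
    ((Fintype.card V : ℤ) - 1) * (Fintype.card V - 6) * (Fintype.card V - 8) *
      (Fintype.card V - 15) ≤
      24 * (((Finset.powersetCard 4 (Finset.univ : Finset V)).filter
        (fun S => ¬ CutOff p S)).card : ℤ) :=
  four_sets hK p hT h3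

end Pool.Agent.Results.MP_cabe73_gt.FourSubsets
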