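import Mathlib
import Pool.Agent.Helper11.RP4.Proj

namespace Pool.Agent.Results.MP_cabe73_gt.SimplicialHull

open Pool.Agent.Helper11.RP4

/-- Let `K` be a closed 4-dimensional complex with a double cover that is a mod 2 homology
4-sphere, such as a triangulation of the real projective 4-space. If the simplexwise linear map
given by the positions `p` of the vertices is tight and spans `ℝ^N`, and all faces of the convex
hull of dimension at most 8 are simplices without further vertices of `K`, then `N ≤ 8`. -/
theorem result {V : Type} [Fintype V] [DecidableEq V] {K : Finset (Finset V)}
    (hK : IsProjective4 K) {N : ℕ} (p : V → (Fin N → ℝ))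
    (hspan : affineSpan ℝ (Set.range p) = ⊤) (hT : Tight K p) (hS : SimplicialFaces 8 p) :
    N ≤ 8 :=
  simplicial_faces hK p hspan hT hS

end Pool.Agent.Results.MP_cabe73_gt.SimplicialHull
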