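import Mathlib
import Pool.Agent.Helper11.RP4.Vertices

namespace Pool.Agent.Results.MP_cabe73_gt.VertexBound

open Pool.Agent.Helper11.RP4

/-- Let `K` be a closed 4-dimensional complex with a double cover that is a mod 2 homology
4-sphere, such as a triangulation of the real projective 4-space, with `n` vertices. If the
simplexwise linear map given by the positions `p` of the vertices is tight and spans `ℝ^N`, then
`2 N ≤ n + 7`. -/
theorem result {V : Type} [Fintype V] [DecidableEq V] {K : Finset (Finset V)}
    (hK : IsProjective4 K) {N : ℕ} (p : V → (Fin N → ℝ))
    (hspan : affineSpan ℝ (Set.range p) = ⊤) (hT : Tight K p) :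
    2 * N ≤ Fintype.card V + 7 :=
  vertex_bound hK p hspan hT

end Pool.Agent.Results.MP_cabe73_gt.VertexBound
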